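import Mathlib
import Pool.Agent.V11172.WordRank

namespace Pool.Agent.Results.MP_b2f7c1_co.ConjugateRoots

open Pool.Agent.V11172.WordRank

/-! ### Definitions -/

/-- The block `w(a) w(a+1) ⋯ w(b-1)` of a bi-infinite word. -/
def block {α : Type*} (w : ℤ → α) (a b : ℤ) : List α :=
  (List.range (b - a).toNat).map fun j : ℕ => w (a + (j : ℤ))

/-- `c` is (the sequence of cut points of) an `X`-factorization of the bi-infinite word `w`. -/
structure IsFact {α : Type*} (X : Finset (List α)) (w : ℤ → α) (c : ℤ → ℤ) : Prop where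
  lt : ∀ i, c i < c (i + 1)
  mem : ∀ i, block w (c i) (c (i + 1)) ∈ X

/-- `ρ` is a primitive word. -/
def IsPrimitive {α : Type*} (ρ : List α) : Prop :=
  ρ ≠ [] ∧ ∀ (z : List α) (k : ℕ), ρ = (List.replicate k z).flatten → k = 1

/-- `ρ` is a primitive root of `u`. -/
def IsRoot {α : Type*} (ρ u : List α) : Prop :=
  IsPrimitive ρ ∧ ∃ k : ℕ, 1 ≤ k ∧ u = (List.replicate k ρ).flatten

/-! ### Blocks -/

variable {α : Type*}

/-- the block of length `n` at position `i` -/
def blk (w : ℤ → α) (i : ℤ) (n : ℕ) : List α := (List.range n).map fun j : ℕ => w (i + (j : ℤ))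

lemma blk_length (w : ℤ → α) (i : ℤ) (n : ℕ) : (blk w i n).length = n := by simp [blk]

lemma blk_succ (w : ℤ → α) (i : ℤ) (n : ℕ) : blk w i (n + 1) = w i :: blk w (i + 1) n := by
  unfold blk
  rw [List.range_succ_eq_map, List.map_cons, List.map_map]
  congr 1
  · simp
  · apply List.map_congr_left
    intro j _
    simp only [Function.comp]
    congr 1
    push_cast
    ring

lemma blk_add (w : ℤ → α) (i : ℤ) (a b : ℕ) :
    blk w i (a + b) = blk w i a ++ blk w (i + a) b := by
  induction a generalizing i with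
  | zero => simp [blk]
  | succ a ih =>
    have h1 : a + 1 + b = (a + b) + 1 := by ring
    rw [h1, blk_succ, blk_succ, ih (i + 1)]
    have h2 : i + 1 + (a : ℤ) = i + ((a + 1 : ℕ) : ℤ) := by push_cast; ring
    rw [h2]
    rfl

lemma blk_eq {w : ℤ → α} {x y : ℤ} {n : ℕ} (h : blk w x n = blk w y n) {i : ℕ} (hi : i < n) :
    w (x + i) = w (y + i) := by
  have h1 : (blk w x n)[i]? = (blk w y n)[i]? := by rw [h]
  simpa [blk, hi] using h1

/-- the right-infinite word of `w` starting at `i` -/
def st (w : ℤ → α) (i : ℤ) : ℕ → α := fun n => w (i + n)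

lemma st_eq (w : ℤ → α) (i : ℤ) (n : ℕ) : st w i = app (blk w i n) (st w (i + n)) := by
  induction n generalizing i with
  | zero => simp [blk, app]
  | succ n ih =>
    rw [blk_succ]
    funext k
    cases k with
    | zero => simp [st, app]
    | succ k =>
      have h1 : st w i (k + 1) = st w (i + 1) k := by
        simp only [st]
        congr 1
        push_cast
        ring
      have h2 : i + ((n + 1 : ℕ) : ℤ) = i + 1 + n := by push_cast; ring
      rw [h1, ih (i + 1), h2]
      rfl

/-! ### Lexicographic comparison of rotations -/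

lemma lex_append_right {r : α → α → Prop} : ∀ {a b : List α}, List.Lex r a b →
    a.length = b.length → ∀ x y, List.Lex r (a ++ x) (b ++ y) := by
  intro a b h
  induction h with
  | nil => intro h; simp at h
  | cons _ ih =>
    intro h x y
    exact List.Lex.cons (ih (by simpa using h) x y)
  | rel h1 =>
    intro _ x y
    exact List.Lex.rel h1

lemma lt_sandwich [LinearOrder α] {a b : List α} (h : a < b) (hl : a.length = b.length)
    (u v v' : List α) : u ++ a ++ v < u ++ b ++ v' := by
  have h1 : List.Lex (· < ·) a b := h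
  have h2 := lex_append_right h1 hl v v'
  have h3 := List.Lex.append_left _ h2 u
  rw [List.append_assoc, List.append_assoc]
  exact h3

lemma rot_left {p s : List α} {k : ℕ} (hk : k ≤ p.length) :
    (p ++ s).rotate k = p.drop k ++ s ++ p.take k := by
  rw [List.rotate_eq_drop_append_take (by rw [List.length_append]; omega),
    List.drop_append_of_le_length hk, List.take_append_of_le_length hk]

lemma rot_right {p s : List α} {k : ℕ} (hk : p.length ≤ k) (hk2 : k ≤ (p ++ s).length) :
    (p ++ s).rotate k = s.drop (k - p.length) ++ p ++ s.take (k - p.length) := by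
  rw [List.rotate_eq_drop_append_take hk2, List.drop_append, List.take_append,
    List.drop_eq_nil_of_le hk, List.take_of_length_le hk]
  simp

lemma cmp_aux [LinearOrder α] {p p'' s s' : List α} (hp : p.length = p''.length)
    (hs : s.length = s'.length) (h1 : p ++ s ~r p ++ s') (h2 : p ++ s ~r p'' ++ s)
    (hne1 : s ≠ s') (hne2 : p ≠ p'') :
    (s < s' ∨ p < p'') ∧ (s' < s ∨ p'' < p) := by
  have hmem : ∀ x : List α, x ∈ (List.cyclicPermutations (p ++ s)).toFinset ↔ x ~r p ++ s := by
    intro x
    rw [List.mem_toFinset, List.mem_cyclicPermutations_iff]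
  have hself : p ++ s ∈ (List.cyclicPermutations (p ++ s)).toFinset :=
    (hmem _).2 (List.IsRotated.refl _)
  constructor
  · obtain ⟨μ, hμ, hmin⟩ := Finset.exists_min_image _ id ⟨_, hself⟩
    obtain ⟨k, hk, rfl⟩ := List.isRotated_iff_mod.1 ((hmem μ).1 hμ).symm
    rcases le_total k p.length with hkp | hkp
    · left
      rcases lt_trichotomy s s' with h | h | h
      · exact h
      · exact absurd h hne1
      · exfalso
        have h3 := hmin ((p ++ s').rotate k) ((hmem _).2
          ((List.IsRotated.forall (p ++ s') k).trans h1.symm))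
        simp only [id] at h3
        rw [rot_left hkp, rot_left hkp] at h3
        exact absurd (lt_sandwich h hs.symm _ _ _) (not_lt.2 h3)
    · right
      rcases lt_trichotomy p p'' with h | h | h
      · exact h
      · exact absurd h hne2
      · exfalso
        have h3 := hmin ((p'' ++ s).rotate k) ((hmem _).2
          ((List.IsRotated.forall (p'' ++ s) k).trans h2.symm))
        simp only [id] at h3
        rw [rot_right hkp hk, rot_right (by omega) (by
          rw [List.length_append] at hk ⊢; omega), ← hp] at h3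
        exact absurd (lt_sandwich h hp.symm _ _ _) (not_lt.2 h3)
  · obtain ⟨μ, hμ, hmin⟩ := Finset.exists_max_image _ id ⟨_, hself⟩
    obtain ⟨k, hk, rfl⟩ := List.isRotated_iff_mod.1 ((hmem μ).1 hμ).symm
    rcases le_total k p.length with hkp | hkp
    · left
      rcases lt_trichotomy s s' with h | h | h
      · exfalso
        have h3 := hmin ((p ++ s').rotate k) ((hmem _).2
          ((List.IsRotated.forall (p ++ s') k).trans h1.symm))
        simp only [id] at h3
        rw [rot_left hkp, rot_left hkp] at h3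
        exact absurd (lt_sandwich h hs _ _ _) (not_lt.2 h3)
      · exact absurd h hne1
      · exact h
    · right
      rcases lt_trichotomy p p'' with h | h | h
      · exfalso
        have h3 := hmin ((p'' ++ s).rotate k) ((hmem _).2
          ((List.IsRotated.forall (p'' ++ s) k).trans h2.symm))
        simp only [id] at h3
        rw [rot_right hkp hk, rot_right (by omega) (by
          rw [List.length_append] at hk ⊢; omega), ← hp] at h3
        exact absurd (lt_sandwich h hp _ _ _) (not_lt.2 h3)
      · exact absurd h hne2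
      · exact h

/-- the local comparison lemma -/
lemma cmp_local [LinearOrder α] {p p'' s s' : List α} (hp : p.length = p''.length)
    (hs : s.length = s'.length) (h1 : p ++ s ~r p ++ s') (h2 : p ++ s ~r p'' ++ s)
    (hne1 : s ≠ s') (hne2 : p ≠ p'') :
    (s < s' ∧ p'' < p) ∨ (s' < s ∧ p < p'') := by
  obtain ⟨h3, h4⟩ := cmp_aux hp hs h1 h2 hne1 hne2
  rcases h3 with h3 | h3
  · rcases h4 with h4 | h4
    · exact absurd h3 (lt_asymm h4)
    · exact Or.inl ⟨h3, h4⟩
  · rcases h4 with h4 | h4
    · exact Or.inr ⟨h4, h3⟩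
    · exact absurd h3 (lt_asymm h4)

/-! ### The uniform case -/

lemma uniform [LinearOrder α] {m r : ℕ} (hr : 0 < r) (hrm : r < m) {R : Finset (List α)}
    (hlen : ∀ x ∈ R, x.length = m) (hconj : ∀ x ∈ R, ∀ y ∈ R, x ~r y) (hrc : ¬ rc R < R.card)
    {w : ℤ → α} {a : ℤ} (hA : ∀ t : ℤ, blk w (a + t * m) m ∈ R)
    (hB : ∀ t : ℤ, blk w (a + t * m + r) m ∈ R) (j : ℤ) : w (j + m) = w j := by
  have h0 : [] ∉ R := by
    intro h
    have := hlen _ h
    simp at this
    omega
  set P : ℤ → List α := fun t => blk w (a + t * m) r with hP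
  set S : ℤ → List α := fun t => blk w (a + t * m + r) (m - r) with hS
  have hPl : ∀ t, (P t).length = r := fun t => blk_length _ _ _
  have hSl : ∀ t, (S t).length = m - r := fun t => blk_length _ _ _
  have ePS : ∀ t, blk w (a + t * m) m = P t ++ S t := by
    intro t
    have h1 := blk_add w (a + t * m) r (m - r)
    rw [show r + (m - r) = m by omega] at h1
    exact h1
  have eSP : ∀ t, blk w (a + t * m + r) m = S t ++ P (t + 1) := by
    intro t
    have h1 := blk_add w (a + t * m + r) (m - r) r
    have h2 : a + t * (m : ℤ) + r + ((m - r : ℕ) : ℤ) = a + (t + 1) * m := by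
      rw [Nat.cast_sub hrm.le]; ring
    rw [show m - r + r = m by omega, h2] at h1
    exact h1
  have hPS : ∀ t, P t ++ S t ∈ R := fun t => ePS t ▸ hA t
  have hSP : ∀ t, S t ++ P (t + 1) ∈ R := fun t => eSP t ▸ hB t
  have facA : ∀ t : ℤ, Fac R (st w (a + t * m)) := by
    intro t
    refine ⟨{V | ∃ t : ℤ, V = st w (a + t * m)}, ⟨t, rfl⟩, ?_⟩
    rintro V ⟨t, rfl⟩
    refine ⟨blk w (a + t * m) m, hA t, st w (a + (t + 1) * m), ⟨t + 1, rfl⟩, ?_⟩
    have h2 : a + (t + 1) * (m : ℤ) = a + t * m + m := by ring
    rw [h2]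
    exact st_eq _ _ _
  have facB : ∀ t : ℤ, Fac R (st w (a + t * m + r)) := by
    intro t
    refine ⟨{V | ∃ t : ℤ, V = st w (a + t * m + r)}, ⟨t, rfl⟩, ?_⟩
    rintro V ⟨t, rfl⟩
    refine ⟨blk w (a + t * m + r) m, hB t, st w (a + (t + 1) * m + r), ⟨t + 1, rfl⟩, ?_⟩
    have h2 : a + (t + 1) * (m : ℤ) + r = a + t * m + r + m := by ring
    rw [h2]
    exact st_eq _ _ _
  have stP : ∀ t : ℤ, st w (a + t * m) = app (P t) (st w (a + t * m + r)) := by
    intro t
    exact st_eq _ _ _
  have stPS : ∀ t : ℤ, st w (a + t * m) = app (P t ++ S t) (st w (a + (t + 1) * m)) := by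
    intro t
    rw [← ePS]
    have h2 : a + (t + 1) * (m : ℤ) = a + t * m + m := by ring
    rw [h2]
    exact st_eq _ _ _
  have stS : ∀ t : ℤ, st w (a + t * m + r) = app (S t) (st w (a + (t + 1) * m)) := by
    intro t
    have h2 : a + t * (m : ℤ) + r + ((m - r : ℕ) : ℤ) = a + (t + 1) * m := by
      rw [Nat.cast_sub hrm.le]; ring
    rw [← h2]
    exact st_eq _ _ _
  have stSP : ∀ t : ℤ, st w (a + t * m + r) =
      app (S t ++ P (t + 1)) (st w (a + (t + 1) * m + r)) := by
    intro t
    rw [← eSP]
    have h2 : a + (t + 1) * (m : ℤ) + r = a + t * m + r + m := by ring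
    rw [h2]
    exact st_eq _ _ _
  -- determinism
  have D1 : ∀ t t', P t = P t' → S t = S t' := by
    intro t t' h
    by_contra hne
    apply hrc
    refine rank_drop h0 (p := P t) (x := P t ++ S t) (x' := P t' ++ S t') ?_ (hPS t) (hPS t') ?_
      (facB t) (facA (t + 1)) (facB t') (facA (t' + 1)) ?_ ?_
    · intro h
      have := hPl t
      rw [h] at this
      simp at this
      omega
    · rw [h]
      intro h2
      exact hne (List.append_cancel_left h2)
    · rw [← stP, ← stPS]
    · rw [h, ← stP, ← stPS]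
  have D2 : ∀ t t', S t = S t' → P (t + 1) = P (t' + 1) := by
    intro t t' h
    by_contra hne
    apply hrc
    refine rank_drop h0 (p := S t) (x := S t ++ P (t + 1)) (x' := S t' ++ P (t' + 1)) ?_
      (hSP t) (hSP t') ?_ (facA (t + 1)) (facB (t + 1)) (facA (t' + 1)) (facB (t' + 1)) ?_ ?_
    · intro h
      have := hSl t
      rw [h] at this
      simp at this
      omega
    · rw [h]
      intro h2
      exact hne (List.append_cancel_left h2)
    · rw [← stS, ← stSP]
    · rw [h, ← stS, ← stSP]
  have Dn : ∀ (n : ℕ) t t', P t = P t' → P (t + n) = P (t' + n) := by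
    intro n
    induction n with
    | zero => intro t t' h; simpa using h
    | succ n ih =>
      intro t t' h
      have h1 := D2 _ _ (D1 _ _ (ih t t' h))
      have e1 : t + ((n + 1 : ℕ) : ℤ) = t + n + 1 := by push_cast; ring
      have e2 : t' + ((n + 1 : ℕ) : ℤ) = t' + n + 1 := by push_cast; ring
      rw [e1, e2]
      exact h1
  -- the walk is constant
  have key : ∀ T : ℤ, P T = P (T + 1) := by
    intro T
    by_contra hT
    obtain ⟨x, hx, y, hy, hxy, hPxy⟩ := Set.Infinite.exists_ne_map_eq_of_mapsTo
      (s := Set.Iic T) (t := ((R.image (List.take r) : Finset (List α)) : Set (List α)))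
      (f := P) (Set.Iic_infinite T) (by
        intro t _
        rw [Finset.mem_coe, Finset.mem_image]
        refine ⟨P t ++ S t, hPS t, ?_⟩
        rw [List.take_append_of_le_length (by rw [hPl]), List.take_of_length_le (by rw [hPl])])
      (Finset.finite_toSet _)
    -- a period
    obtain ⟨d, hd, hper⟩ : ∃ d : ℕ, 1 ≤ d ∧ ∀ n : ℕ, P (T + n) = P (T + n + d) := by
      have aux : ∀ x y : ℤ, x ≤ T → y ≤ T → x < y → P x = P y →
          ∃ d : ℕ, 1 ≤ d ∧ ∀ n : ℕ, P (T + n) = P (T + n + d) := by
        intro x y hx hy hlt h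
        obtain ⟨d, hd⟩ := Int.eq_ofNat_of_zero_le (show 0 ≤ y - x by omega)
        obtain ⟨e, he⟩ := Int.eq_ofNat_of_zero_le (show 0 ≤ T - x by omega)
        refine ⟨d, by omega, fun n => ?_⟩
        have h1 := Dn (e + n) _ _ h
        have e1 : x + ((e + n : ℕ) : ℤ) = T + n := by push_cast; omega
        have e2 : y + ((e + n : ℕ) : ℤ) = T + n + d := by push_cast; omega
        rw [e1, e2] at h1
        exact h1
      rcases lt_or_gt_of_ne hxy with h | h
      · exact aux x y hx hy h hPxy
      · exact aux y x hy hx h hPxy.symm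
    have hmul : ∀ (N : ℕ) (n : ℕ), P (T + n) = P (T + n + N * d) := by
      intro N
      induction N with
      | zero => intro n; simp
      | succ N ih =>
        intro n
        rw [ih n]
        have h1 := hper (n + N * d)
        have e1 : T + ((n + N * d : ℕ) : ℤ) = T + n + N * d := by push_cast; ring
        have e2 : T + n + ((N + 1 : ℕ) : ℤ) * d = T + n + N * d + d := by push_cast; ring
        rw [e1] at h1
        rw [e2, h1]
    have hdist : ∀ n : ℕ, P (T + n) ≠ P (T + n + 1) := by
      intro n h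
      apply hT
      obtain ⟨k, hk⟩ : ∃ k : ℕ, n + k = n * d := ⟨n * d - n, by
        have : n * 1 ≤ n * d := Nat.mul_le_mul_left n hd
        omega⟩
      have h1 := Dn k _ _ h
      have e1 : T + (n : ℤ) + k = T + (0 : ℕ) + n * d := by
        have : ((n + k : ℕ) : ℤ) = ((n * d : ℕ) : ℤ) := by rw [hk]
        push_cast at this ⊢
        omega
      have e2 : T + (n : ℤ) + 1 + k = T + (1 : ℕ) + n * d := by
        have : ((n + k : ℕ) : ℤ) = ((n * d : ℕ) : ℤ) := by rw [hk]
        push_cast at this ⊢
        omega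
      rw [e1, e2, ← hmul n 0, ← hmul n 1] at h1
      simpa using h1
    have hdistS : ∀ n : ℕ, S (T + n) ≠ S (T + n + 1) := by
      intro n h
      have h1 := D2 _ _ h
      have := hdist (n + 1)
      apply this
      have e1 : T + ((n + 1 : ℕ) : ℤ) = T + n + 1 := by push_cast; ring
      rw [e1]
      exact h1
    -- conjugacy
    have hc : ∀ t t', P t ++ S t ~r P t' ++ S t' := fun t t' => hconj _ (hPS t) _ (hPS t')
    have hc2 : ∀ t t', P (t + 1) ++ S t ~r P t' ++ S t' := fun t t' =>
      List.isRotated_append.trans (hconj _ (hSP t) _ (hPS t'))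
    have hstep : ∀ n : ℕ, (P (T + n) < P (T + n + 1) → P (T + n + 1) < P (T + n + 2)) ∧
        (P (T + n + 1) < P (T + n) → P (T + n + 2) < P (T + n + 1)) := by
      intro n
      set u := T + (n : ℤ) with hu
      have d1 : P u ≠ P (u + 1) := hdist n
      have d2 : P (u + 1) ≠ P (u + 2) := by
        have := hdist (n + 1)
        have e1 : T + ((n + 1 : ℕ) : ℤ) = u + 1 := by push_cast; ring
        rw [e1] at this
        have e2 : u + 1 + 1 = u + 2 := by ring
        rw [e2] at this
        exact this
      have d3 : S u ≠ S (u + 1) := hdistS n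
      have c1 := cmp_local (p := P (u + 1)) (p'' := P u) (s := S u) (s' := S (u + 1))
        (by rw [hPl, hPl]) (by rw [hSl, hSl]) (hc2 u (u + 1)) (hc2 u u) d3 d1.symm
      have c2 := cmp_local (p := P (u + 1)) (p'' := P (u + 2)) (s := S (u + 1)) (s' := S u)
        (by rw [hPl, hPl]) (by rw [hSl, hSl]) ((hc2 u (u + 1)).symm) (by
          have e2 : u + 2 = u + 1 + 1 := by ring
          rw [e2]
          exact (hc2 (u + 1) (u + 1)).symm) d3.symm d2
      constructor
      · intro h
        rcases c1 with c1 | c1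
        · rcases c2 with c2 | c2
          · exact absurd c1.1 (lt_asymm c2.1)
          · exact c2.2
        · exact absurd h (lt_asymm c1.2)
      · intro h
        rcases c1 with c1 | c1
        · exact absurd h (lt_asymm c1.2)
        · rcases c2 with c2 | c2
          · exact c2.2
          · exact absurd c1.1 (lt_asymm c2.1)
    have hfin : P (T + d) = P T := by simpa using (hper 0).symm
    rcases lt_or_gt_of_ne hT with h | h
    · have up : ∀ n : ℕ, P (T + n) < P (T + n + 1) ∧ P T < P (T + n + 1) := by
        intro n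
        induction n with
        | zero => simpa using h
        | succ n ih =>
          have h1 := (hstep n).1 ih.1
          have e1 : T + ((n + 1 : ℕ) : ℤ) = T + n + 1 := by push_cast; ring
          have e2 : T + (n : ℤ) + 1 + 1 = T + n + 2 := by ring
          rw [e1, e2]
          exact ⟨h1, ih.2.trans h1⟩
      obtain ⟨e, rfl⟩ : ∃ e, d = e + 1 := ⟨d - 1, by omega⟩
      have h1 := (up e).2
      have e1 : T + ((e + 1 : ℕ) : ℤ) = T + e + 1 := by push_cast; ring
      rw [← e1, hfin] at h1
      exact lt_irrefl _ h1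
    · have up : ∀ n : ℕ, P (T + n + 1) < P (T + n) ∧ P (T + n + 1) < P T := by
        intro n
        induction n with
        | zero => simpa using h
        | succ n ih =>
          have h1 := (hstep n).2 ih.1
          have e1 : T + ((n + 1 : ℕ) : ℤ) = T + n + 1 := by push_cast; ring
          have e2 : T + (n : ℤ) + 1 + 1 = T + n + 2 := by ring
          rw [e1, e2]
          exact ⟨h1, h1.trans ih.2⟩
      obtain ⟨e, rfl⟩ : ∃ e, d = e + 1 := ⟨d - 1, by omega⟩
      have h1 := (up e).2
      have e1 : T + ((e + 1 : ℕ) : ℤ) = T + e + 1 := by push_cast; ring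
      rw [← e1, hfin] at h1
      exact lt_irrefl _ h1
  -- conclusion
  have hm : (0 : ℤ) < m := by omega
  set T := (j - a) / m with hTdef
  obtain ⟨i, hi⟩ := Int.eq_ofNat_of_zero_le (Int.emod_nonneg (j - a) hm.ne')
  have hlt := Int.emod_lt_of_pos (j - a) hm
  have hdm := Int.mul_ediv_add_emod (j - a) m
  rw [hi] at hlt hdm
  have him : i < m := by exact_mod_cast hlt
  have hj : j = a + T * m + i := by rw [hTdef]; linarith [mul_comm ((j - a) / (m : ℤ)) (m : ℤ)]
  by_cases hir : i < r
  · have h1 := blk_eq (key T) hir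
    rw [hj]
    have e1 : a + T * (m : ℤ) + i + m = a + (T + 1) * m + i := by ring
    rw [e1]
    exact h1.symm
  · have hS' : S T = S (T + 1) := D1 _ _ (key T)
    have h1 := blk_eq hS' (i := i - r) (by omega)
    rw [hj]
    have e1 : a + T * (m : ℤ) + i + m = a + (T + 1) * m + r + ((i - r : ℕ) : ℤ) := by
      rw [Nat.cast_sub (by omega)]; ring
    have e2 : a + T * (m : ℤ) + i = a + T * m + r + ((i - r : ℕ) : ℤ) := by
      rw [Nat.cast_sub (by omega)]; ring
    rw [e1, e2]
    exact h1.symm

/-! ### Roots -/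

lemma pow_mul' (z : List α) (k j : ℕ) :
    (List.replicate k (List.replicate j z).flatten).flatten =
      (List.replicate (k * j) z).flatten := by
  induction k with
  | zero => simp
  | succ k ih =>
    rw [List.replicate_succ, List.flatten_cons, ih, Nat.succ_mul, Nat.add_comm,
      List.replicate_add, List.flatten_append]

lemma exists_root : ∀ (n : ℕ) (u : List α), u.length ≤ n → u ≠ [] → ∃ ρ, IsRoot ρ u := by
  intro n
  induction n with
  | zero =>
    intro u hu h0
    exact absurd (List.length_eq_zero_iff.1 (by omega)) h0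
  | succ n ih =>
    intro u hu h0
    by_cases hp : IsPrimitive u
    · exact ⟨u, hp, 1, le_refl 1, by simp⟩
    · unfold IsPrimitive at hp
      push Not at hp
      obtain ⟨z, k, hk, hk1⟩ := hp h0
      have hk0 : k ≠ 0 := by
        rintro rfl
        exact h0 (by simpa using hk)
      have hz0 : z ≠ [] := by
        rintro rfl
        exact h0 (by simpa using hk)
      have hzl : 0 < z.length := List.length_pos_iff.2 hz0
      have hlen : u.length = k * z.length := by
        rw [hk]; simp
      have h2 : 2 * z.length ≤ k * z.length := Nat.mul_le_mul_right _ (by omega)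
      obtain ⟨ρ, hρ, j, hj, hzj⟩ := ih z (by omega) hz0
      refine ⟨ρ, hρ, k * j, ?_, ?_⟩
      · exact Nat.one_le_iff_ne_zero.2 (Nat.mul_ne_zero hk0 (by omega))
      · rw [hk]
        conv_lhs => rw [hzj]
        exact pow_mul' ρ k j

lemma inStar_pow {Z : Finset (List α)} {ρ : List α} (h : InStar Z ρ) (k : ℕ) :
    InStar Z (List.replicate k ρ).flatten :=
  InStar.flatten fun y hy => by rw [List.eq_of_mem_replicate hy]; exact h

/-! ### Factorizations -/

section Fact

variable {X : Finset (List α)} {root : List α → List α} {m : ℕ} {w : ℤ → α} {c : ℤ → ℤ}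

lemma fact_len (hroot : ∀ u ∈ X, IsRoot (root u) u) (hm : ∀ u ∈ X, (root u).length = m)
    (hc : IsFact X w c) (i : ℤ) : ∃ k : ℕ, 1 ≤ k ∧ c (i + 1) = c i + k * m ∧
      blk w (c i) (k * m) = (List.replicate k (root (block w (c i) (c (i + 1))))).flatten := by
  obtain ⟨-, k, hk, e⟩ := hroot _ (hc.mem i)
  have hl : (block w (c i) (c (i + 1))).length = k * m := by
    conv_lhs => rw [e]
    simp [hm _ (hc.mem i)]
  have hl2 : (block w (c i) (c (i + 1))).length = (c (i + 1) - c i).toNat := by
    simp [block]
  have hlt := hc.lt i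
  have h3 : (((c (i + 1) - c i).toNat : ℕ) : ℤ) = c (i + 1) - c i :=
    Int.toNat_of_nonneg (by omega)
  refine ⟨k, hk, ?_, ?_⟩
  · have : (((c (i + 1) - c i).toNat : ℕ) : ℤ) = ((k * m : ℕ) : ℤ) := by rw [← hl2, hl]
    rw [h3] at this
    push_cast at this
    linarith
  · rw [← e, ← hl, hl2]
    rfl

lemma fact_dvd (hroot : ∀ u ∈ X, IsRoot (root u) u) (hm : ∀ u ∈ X, (root u).length = m)
    (hc : IsFact X w c) (i : ℤ) : (m : ℤ) ∣ c i - c 0 := by
  induction i using Int.induction_on with
  | zero => simp
  | succ i ih =>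
    obtain ⟨k, -, e, -⟩ := fact_len hroot hm hc i
    rw [e]
    have : c i + k * m - c 0 = (c i - c 0) + k * m := by ring
    rw [this]
    exact dvd_add ih (Dvd.intro_left _ rfl)
  | pred i ih =>
    obtain ⟨k, -, e, -⟩ := fact_len hroot hm hc (-i - 1)
    have h1 : (-(i : ℤ) - 1 + 1) = -i := by ring
    rw [h1] at e
    have : c (-i - 1) - c 0 = (c (-i) - c 0) - k * m := by rw [e]; ring
    rw [this]
    exact dvd_sub ih (Dvd.intro_left _ rfl)

lemma fact_cover (hc : IsFact X w c) (j : ℤ) : ∃ i, c i ≤ j ∧ j < c (i + 1) := by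
  have hmono : StrictMono c := strictMono_int_of_lt_succ hc.lt
  have hgrow : ∀ (n : ℕ) (a : ℤ), c a + n ≤ c (a + n) := by
    intro n
    induction n with
    | zero => intro a; simp
    | succ n ih =>
      intro a
      have h1 := ih a
      have h2 := hc.lt (a + n)
      have e1 : a + ((n + 1 : ℕ) : ℤ) = a + n + 1 := by push_cast; ring
      rw [e1]
      push_cast
      omega
  obtain ⟨i, hi, hmax⟩ := Int.exists_greatest_of_bdd (P := fun i => c i ≤ j)
    ⟨max 0 (j - c 0), by
      intro z hz
      by_contra hcon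
      push Not at hcon
      have hz0 : 0 < z := lt_of_le_of_lt (le_max_left _ _) hcon
      have hz1 : j - c 0 < z := lt_of_le_of_lt (le_max_right _ _) hcon
      obtain ⟨n, hn⟩ := Int.eq_ofNat_of_zero_le hz0.le
      have h1 := hgrow n 0
      rw [zero_add, ← hn] at h1
      omega⟩
    ⟨min 0 (j - c 0), by
      obtain ⟨n, hn⟩ := Int.eq_ofNat_of_zero_le
        (show 0 ≤ -(min 0 (j - c 0)) by
          have := min_le_left 0 (j - c 0)
          omega)
      have h1 := hgrow n (min 0 (j - c 0))
      have h2 : min 0 (j - c 0) + (n : ℤ) = 0 := by omega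
      rw [h2] at h1
      have h3 := min_le_right 0 (j - c 0)
      omega⟩
  refine ⟨i, hi, ?_⟩
  by_contra hcon
  push Not at hcon
  have := hmax _ hcon
  omega

lemma fact_root (hm0 : 0 < m) (hroot : ∀ u ∈ X, IsRoot (root u) u)
    (hm : ∀ u ∈ X, (root u).length = m)
    (hc : IsFact X w c) {j : ℤ} (hj : (m : ℤ) ∣ j - c 0) {i : ℤ} (h1 : c i ≤ j)
    (h2 : j < c (i + 1)) : blk w j m = root (block w (c i) (c (i + 1))) := by
  obtain ⟨k, hk, e, hb⟩ := fact_len hroot hm hc i
  have hd : (m : ℤ) ∣ j - c i := by
    have : j - c i = (j - c 0) - (c i - c 0) := by ring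
    rw [this]
    exact dvd_sub hj (fact_dvd hroot hm hc i)
  obtain ⟨q, hq⟩ := hd
  have hmZ : (0 : ℤ) < m := by exact_mod_cast hm0
  have hq0 : 0 ≤ q := by
    by_contra hcon
    push Not at hcon
    nlinarith
  obtain ⟨n, rfl⟩ := Int.eq_ofNat_of_zero_le hq0
  have hnk : n < k := by
    have : (m : ℤ) * n < m * k := by
      have h3 : (m : ℤ) * n < k * m := by linarith
      linarith [mul_comm (k : ℤ) (m : ℤ)]
    have := lt_of_mul_lt_mul_left this hmZ.le
    exact_mod_cast this
  obtain ⟨l, rfl⟩ : ∃ l, k = n + (1 + l) := ⟨k - n - 1, by omega⟩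
  have e1 : (n + (1 + l)) * m = n * m + (m + l * m) := by ring
  rw [e1, blk_add, blk_add, List.replicate_add, List.replicate_add, List.flatten_append,
    List.flatten_append] at hb
  have hl := hm _ (hc.mem i)
  obtain ⟨-, h3⟩ := List.append_inj hb (by rw [blk_length]; simp [hl])
  obtain ⟨h4, -⟩ := List.append_inj h3 (by rw [blk_length]; simp [hl])
  have e2 : c i + ((n * m : ℕ) : ℤ) = j := by
    push_cast
    linarith [mul_comm (n : ℤ) (m : ℤ)]
  rw [e2] at h4
  rw [h4]
  simp

end Fact

/-- **Theorem.** Let `X` be a finite set of nonempty words with `r_c(X) = card X` in which the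
primitive roots of all elements are pairwise conjugate, and let the bi-infinite word `w` have two
different `X`-factorizations. Then every `X`-factorization of `w` is of the form `a^ℤ` for some
`a ∈ X`. -/
theorem result {α : Type*} (X : Finset (List α)) (h0 : [] ∉ X) (hrank : rc X = X.card)
    (hroots : ∀ u ∈ X, ∀ v ∈ X, ∀ ρ σ, IsRoot ρ u → IsRoot σ v → ρ ~r σ)
    (w : ℤ → α) (c₁ c₂ : ℤ → ℤ) (h₁ : IsFact X w c₁) (h₂ : IsFact X w c₂)
    (hne : Set.range c₁ ≠ Set.range c₂) :
    ∀ c, IsFact X w c → ∃ a ∈ X, ∀ i, block w (c i) (c (i + 1)) = a := by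
  classical
  let _ : LinearOrder α := linearOrderOfSTO WellOrderingRel
  intro c hc
  have hex : ∀ u ∈ X, ∃ ρ, IsRoot ρ u := fun u hu =>
    exists_root _ u le_rfl (fun h => h0 (h ▸ hu))
  choose! root hroot using hex
  obtain ⟨m, hm⟩ : ∃ m, ∀ u ∈ X, (root u).length = m :=
    ⟨(root (block w (c 0) (c (0 + 1)))).length, fun u hu =>
      (hroots u hu _ (hc.mem 0) _ _ (hroot u hu) (hroot _ (hc.mem 0))).perm.length_eq⟩
  have hm0 : 0 < m := by
    rw [← hm _ (hc.mem 0)]
    exact List.length_pos_iff.2 (hroot _ (hc.mem 0)).1.1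
  have hmZ : (0 : ℤ) < m := by exact_mod_cast hm0
  have hroot0 : ∀ u ∈ X, root u ≠ [] := fun u hu => (hroot u hu).1.1
  have hpow : ∀ u ∈ X, ∀ Z : Finset (List α), InStar Z (root u) → InStar Z u := by
    intro u hu Z hZ
    obtain ⟨-, k, -, e⟩ := hroot u hu
    rw [e]
    exact inStar_pow hZ k
  -- distinct elements have distinct roots
  have hinj : ∀ x ∈ X, ∀ y ∈ X, root x = root y → x = y := by
    intro x hx y hy hxy
    by_contra hne
    have h1 : rc X ≤ (insert (root x) ((X.erase x).erase y)).card := by
      apply rc_le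
      · intro h
        rcases Finset.mem_insert.1 h with h | h
        · exact hroot0 x hx h.symm
        · exact h0 (Finset.mem_of_mem_erase (Finset.mem_of_mem_erase h))
      · intro u hu
        by_cases h1 : u = x
        · rw [h1]
          exact hpow x hx _ (InStar.of_mem (Finset.mem_insert_self _ _))
        · by_cases h2 : u = y
          · rw [h2]
            apply hpow y hy
            rw [← hxy]
            exact InStar.of_mem (Finset.mem_insert_self _ _)
          · exact InStar.of_mem (by simp [h1, h2, hu])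
    have h2 : (insert (root x) ((X.erase x).erase y)).card ≤ ((X.erase x).erase y).card + 1 :=
      Finset.card_insert_le _ _
    have h3 : ((X.erase x).erase y).card = (X.erase x).card - 1 :=
      Finset.card_erase_of_mem (Finset.mem_erase.2 ⟨Ne.symm hne, hy⟩)
    have h4 : (X.erase x).card = X.card - 1 := Finset.card_erase_of_mem hx
    have h5 : 2 ≤ X.card := by
      have : ({x, y} : Finset (List α)) ⊆ X := by
        intro u hu
        simp only [Finset.mem_insert, Finset.mem_singleton] at hu
        rcases hu with rfl | rfl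
        · exact hx
        · exact hy
      have := Finset.card_le_card this
      rwa [Finset.card_pair hne] at this
    omega
  set R : Finset (List α) := X.image root with hR
  have hRmem : ∀ u ∈ X, root u ∈ R := fun u hu => Finset.mem_image_of_mem root hu
  have hRcard : R.card = X.card := Finset.card_image_of_injOn (fun x hx y hy h => hinj x hx y hy h)
  have hRlen : ∀ x ∈ R, x.length = m := by
    intro x hx
    obtain ⟨u, hu, rfl⟩ := Finset.mem_image.1 hx
    exact hm u hu
  have hRconj : ∀ x ∈ R, ∀ y ∈ R, x ~r y := by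
    intro x hx y hy
    obtain ⟨u, hu, rfl⟩ := Finset.mem_image.1 hx
    obtain ⟨v, hv, rfl⟩ := Finset.mem_image.1 hy
    exact hroots u hu v hv _ _ (hroot u hu) (hroot v hv)
  have hR0 : [] ∉ R := by
    intro h
    obtain ⟨u, hu, e⟩ := Finset.mem_image.1 h
    exact hroot0 u hu e
  have hRrc : ¬ rc R < R.card := by
    intro hlt
    obtain ⟨Z, hZc, hZ0, hZ⟩ := Nat.sInf_mem (s := {n | ∃ Z : Finset (List α), Z.card = n ∧
      [] ∉ Z ∧ ∀ x ∈ R, InStar Z x}) ⟨R.card, R, rfl, hR0, fun x hx => InStar.of_mem hx⟩
    have h1 : rc X ≤ Z.card := rc_le hZ0 fun u hu => hpow u hu Z (hZ _ (hRmem u hu))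
    have h2 : Z.card = rc R := hZc
    omega
  have hphase : ∀ c : ℤ → ℤ, IsFact X w c → ∀ j : ℤ, (m : ℤ) ∣ j - c 0 → blk w j m ∈ R := by
    intro c hc j hj
    obtain ⟨i, hi1, hi2⟩ := fact_cover hc j
    rw [fact_root hm0 hroot hm hc hj hi1 hi2]
    exact hRmem _ (hc.mem i)
  -- the word is `m`-periodic
  have hper : ∀ j : ℤ, w (j + m) = w j := by
    by_cases hd : (m : ℤ) ∣ c₂ 0 - c₁ 0
    · by_contra hcon
      push Not at hcon
      obtain ⟨j0, hj0⟩ := hcon
      apply hne
      -- a common cut
      obtain ⟨j, hjd, hj1, hj2⟩ : ∃ j : ℤ, (m : ℤ) ∣ j - c₁ 0 ∧ j ≤ j0 ∧ j0 < j + m := by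
        refine ⟨c₁ 0 + m * ((j0 - c₁ 0) / m), ⟨(j0 - c₁ 0) / m, by ring⟩, ?_, ?_⟩
        · have := Int.mul_ediv_self_le (x := j0 - c₁ 0) (k := m) hmZ.ne'
          linarith
        · have := Int.lt_mul_ediv_self_add (x := j0 - c₁ 0) hmZ
          linarith
      have hblk : blk w j m ≠ blk w (j + m) m := by
        intro h
        apply hj0
        obtain ⟨i, hi⟩ := Int.eq_ofNat_of_zero_le (show 0 ≤ j0 - j by omega)
        have h1 := blk_eq h (i := i) (by omega)
        have e1 : j + (i : ℤ) = j0 := by omega
        have e2 : j + (m : ℤ) + i = j0 + m := by omega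
        rw [e1, e2] at h1
        exact h1.symm
      have hcut : ∀ c : ℤ → ℤ, IsFact X w c → (m : ℤ) ∣ j - c 0 → ∃ i, c i = j + m := by
        intro c hc hd
        have hd2 : (m : ℤ) ∣ j + m - c 0 := by
          have : j + m - c 0 = (j - c 0) + m := by ring
          rw [this]
          exact dvd_add hd (dvd_refl _)
        obtain ⟨i, hi1, hi2⟩ := fact_cover hc (j + m)
        refine ⟨i, ?_⟩
        by_contra hne
        have hlt : c i < j + m := lt_of_le_of_ne hi1 hne
        have hle : c i ≤ j := by
          have h3 : (m : ℤ) ∣ j + m - c i := by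
            have : j + m - c i = (j + m - c 0) - (c i - c 0) := by ring
            rw [this]
            exact dvd_sub hd2 (fact_dvd hroot hm hc i)
          have := Int.le_of_dvd (by omega) h3
          omega
        apply hblk
        rw [fact_root hm0 hroot hm hc hd hle (by omega),
          fact_root hm0 hroot hm hc hd2 hi1 hi2]
      have hjd2 : (m : ℤ) ∣ j - c₂ 0 := by
        have : j - c₂ 0 = (j - c₁ 0) - (c₂ 0 - c₁ 0) := by ring
        rw [this]
        exact dvd_sub hjd hd
      obtain ⟨i₁, hi₁⟩ := hcut c₁ h₁ hjd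
      obtain ⟨i₂, hi₂⟩ := hcut c₂ h₂ hjd2
      have fwd : ∀ a b : ℤ, c₁ a = c₂ b → c₁ (a + 1) = c₂ (b + 1) := by
        intro a b hab
        have r1 := fact_root hm0 hroot hm h₁ (fact_dvd hroot hm h₁ a) le_rfl (h₁.lt a)
        have r2 := fact_root hm0 hroot hm h₂ (fact_dvd hroot hm h₂ b) le_rfl (h₂.lt b)
        have e := hinj _ (h₁.mem a) _ (h₂.mem b) (by rw [← r1, ← r2, hab])
        have el : (block w (c₁ a) (c₁ (a + 1))).length = (block w (c₂ b) (c₂ (b + 1))).length := by
          rw [e]
        have l1 := h₁.lt a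
        have l2 := h₂.lt b
        simp only [block, List.length_map, List.length_range] at el
        omega
      have bwd : ∀ a b : ℤ, c₁ (a + 1) = c₂ (b + 1) → c₁ a = c₂ b := by
        intro a b hab
        obtain ⟨k₁, hk₁, e₁, -⟩ := fact_len hroot hm h₁ a
        obtain ⟨k₂, hk₂, e₂, -⟩ := fact_len hroot hm h₂ b
        have d₁ : (m : ℤ) ∣ c₁ (a + 1) - m - c₁ 0 := by
          have : c₁ (a + 1) - m - c₁ 0 = (c₁ (a + 1) - c₁ 0) - m := by ring
          rw [this]
          exact dvd_sub (fact_dvd hroot hm h₁ _) (dvd_refl _)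
        have d₂ : (m : ℤ) ∣ c₂ (b + 1) - m - c₂ 0 := by
          have : c₂ (b + 1) - m - c₂ 0 = (c₂ (b + 1) - c₂ 0) - m := by ring
          rw [this]
          exact dvd_sub (fact_dvd hroot hm h₂ _) (dvd_refl _)
        have g₁ : (m : ℤ) ≤ k₁ * m := by
          have : (1 : ℤ) ≤ k₁ := by exact_mod_cast hk₁
          nlinarith
        have g₂ : (m : ℤ) ≤ k₂ * m := by
          have : (1 : ℤ) ≤ k₂ := by exact_mod_cast hk₂
          nlinarith
        have r1 := fact_root hm0 hroot hm h₁ d₁ (i := a) (by omega) (by omega)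
        have r2 := fact_root hm0 hroot hm h₂ d₂ (i := b) (by omega) (by omega)
        have e := hinj _ (h₁.mem a) _ (h₂.mem b) (by rw [← r1, ← r2, hab])
        have el : (block w (c₁ a) (c₁ (a + 1))).length = (block w (c₂ b) (c₂ (b + 1))).length := by
          rw [e]
        have l1 := h₁.lt a
        have l2 := h₂.lt b
        simp only [block, List.length_map, List.length_range] at el
        omega
      have hall : ∀ k : ℤ, c₁ (i₁ + k) = c₂ (i₂ + k) := by
        intro k
        induction k using Int.induction_on with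
        | zero => simp [hi₁, hi₂]
        | succ k ih =>
          have := fwd _ _ ih
          rw [← add_assoc, ← add_assoc]
          exact this
        | pred k ih =>
          apply bwd
          have e1 : i₁ + (-(k : ℤ) - 1) + 1 = i₁ + -k := by ring
          have e2 : i₂ + (-(k : ℤ) - 1) + 1 = i₂ + -k := by ring
          rw [e1, e2]
          exact ih
      ext x
      constructor
      · rintro ⟨i, rfl⟩
        refine ⟨i₂ + (i - i₁), ?_⟩
        rw [← hall]
        congr 1
        ring
      · rintro ⟨i, rfl⟩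
        refine ⟨i₁ + (i - i₂), ?_⟩
        rw [hall]
        congr 1
        ring
    · -- different phases
      obtain ⟨r, hr⟩ := Int.eq_ofNat_of_zero_le (Int.emod_nonneg (c₂ 0 - c₁ 0) hmZ.ne')
      have hlt := Int.emod_lt_of_pos (c₂ 0 - c₁ 0) hmZ
      have hdm := Int.mul_ediv_add_emod (c₂ 0 - c₁ 0) m
      have hr0 : r ≠ 0 := by
        rintro rfl
        exact hd (Int.dvd_of_emod_eq_zero (by simpa using hr))
      rw [hr] at hlt hdm
      refine uniform (m := m) (r := r) (a := c₁ 0) (by omega) (by exact_mod_cast hlt) hRlen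
        hRconj hRrc ?_ ?_
      · intro t
        exact hphase c₁ h₁ _ ⟨t, by ring⟩
      · intro t
        apply hphase c₂ h₂
        refine ⟨t - (c₂ 0 - c₁ 0) / m, ?_⟩
        rw [mul_sub]
        linarith [mul_comm t (m : ℤ)]
  -- conclusion
  have hperk : ∀ (k : ℕ) (j : ℤ), w (j + k * m) = w j := by
    intro k
    induction k with
    | zero => intro j; simp
    | succ k ih =>
      intro j
      have e : j + ((k + 1 : ℕ) : ℤ) * m = (j + k * m) + m := by push_cast; ring
      rw [e, hper, ih]
  have hblk : ∀ (k : ℕ) (j : ℤ), blk w (j + k * m) m = blk w j m := by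
    intro k j
    unfold blk
    apply List.map_congr_left
    intro i _
    have e : j + (k : ℤ) * m + i = (j + i) + k * m := by ring
    rw [e, hperk]
  refine ⟨block w (c 0) (c (0 + 1)), hc.mem 0, fun i => ?_⟩
  apply hinj _ (hc.mem i) _ (hc.mem 0)
  rw [← fact_root hm0 hroot hm hc (fact_dvd hroot hm hc i) le_rfl (hc.lt i),
    ← fact_root hm0 hroot hm hc (fact_dvd hroot hm hc 0) le_rfl (hc.lt 0)]
  obtain ⟨q, hq⟩ := fact_dvd hroot hm hc i
  rcases le_total 0 q with h | h
  · obtain ⟨n, rfl⟩ := Int.eq_ofNat_of_zero_le h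
    have e : c i = c 0 + n * m := by linarith [mul_comm (n : ℤ) (m : ℤ)]
    rw [e, hblk]
  · obtain ⟨n, hn⟩ := Int.eq_ofNat_of_zero_le (show 0 ≤ -q by omega)
    have e : c 0 = c i + n * m := by
      rw [← hn]
      linarith [mul_comm (-q) (m : ℤ), mul_neg (m : ℤ) q]
    rw [e, hblk]

end Pool.Agent.Results.MP_b2f7c1_co.ConjugateRoots
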